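import Mathlib

/-!
# Terminal-comprising ambiguity cannot be avoided over any finite alphabet

For every nonempty finite alphabet `A` we construct a morphically primitive pattern such that every
nonerasing (in particular every injective) substitution is terminal-comprisingly ambiguous.

Let `t_0, …, t_m` be letters among which every letter of `A` occurs and let `b` be a letter. The
pattern is the concatenation of
* the blocks `f_i t_i y_i v_i x b k_i v_i x b` for `0 ≤ i ≤ m`,
* the block `h u_m x b`,
* the blocks `p_i u_i u_{i+1} y_{i+1} g_i b` for `0 ≤ i < m`,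
where `u_0 = y_0`. If `σ(x) = P t_j Q` then another substitution `τ` with the same image erases
`y_j`, `v_j` and the `u_i` with `i ≥ j`, maps `x` to `Q`, and moves the terminal `t_j` of the
`j`-th block into `σ(x)`.
-/

set_option autoImplicit false

namespace Pool.Agent.Results.MP_00321d_lc.EveryAlphabet

universe w

/-! ### Definitions -/

/-- Patterns over the terminal alphabet `A`: finite words over variables (the positive integers)
and terminal letters. -/
abbrev Pattern (A : Type w) : Type w := List (ℕ+ ⊕ A)

/-- The terminal-preserving morphism `(ℕ ∪ A)^* → (ℕ ∪ A)^*` given by the images `φ` of the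
variables, applied to a pattern. -/
def applyMor {A : Type w} (φ : ℕ+ → Pattern A) (α : Pattern A) : Pattern A :=
  α.flatMap (Sum.elim φ fun a => [Sum.inr a])

/-- The substitution `(ℕ ∪ A)^* → A^*` given by the images `σ` of the variables, applied to a
pattern. -/
def applySubst {A : Type w} (σ : ℕ+ → List A) (α : Pattern A) : List A :=
  α.flatMap (Sum.elim σ fun a => [a])

/-- `α` is morphically imprimitive: there are a strictly shorter pattern `β` and
terminal-preserving morphisms mapping `α` to `β` and `β` to `α`. -/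
def MorphicallyImprimitive {A : Type w} (α : Pattern A) : Prop :=
  ∃ (β : Pattern A) (φ ψ : ℕ+ → Pattern A),
    β.length < α.length ∧ applyMor φ α = β ∧ applyMor ψ β = α

/-- `α` is morphically primitive. -/
def MorphicallyPrimitive {A : Type w} (α : Pattern A) : Prop := ¬ MorphicallyImprimitive α

/-- The substitution given by `σ` is injective on the nonempty words of variables. -/
def IsInjectiveSubst {A : Type w} (σ : ℕ+ → List A) : Prop :=
  ∀ r s : List ℕ+, r ≠ [] → s ≠ [] → r.flatMap σ = s.flatMap σ → r = s

/-- Under the substitution `τ`, the position `p` of `τ(α)` comes from an occurrence of a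
variable in `α`. -/
def FromVariable {A : Type w} (τ : ℕ+ → List A) (α : Pattern A) (p : ℕ) : Prop :=
  ∃ (α₁ : Pattern A) (n : ℕ+) (α₂ : Pattern A), α = α₁ ++ Sum.inl n :: α₂ ∧
    (applySubst τ α₁).length ≤ p ∧ p < (applySubst τ α₁).length + (τ n).length

/-- Under the substitution `τ`, the position `p` of `τ(α)` comes from an occurrence of a
terminal in `α`. -/
def FromTerminal {A : Type w} (τ : ℕ+ → List A) (α : Pattern A) (p : ℕ) : Prop :=
  ∃ (α₁ : Pattern A) (a : A) (α₂ : Pattern A), α = α₁ ++ Sum.inr a :: α₂ ∧
    p = (applySubst τ α₁).length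

/-- The word `W` is terminal-comprisingly ambiguous with respect to `α`. -/
def WordTCAmbiguous {A : Type w} (α : Pattern A) (W : List A) : Prop :=
  ∃ τ₁ τ₂ : ℕ+ → List A, applySubst τ₁ α = W ∧ applySubst τ₂ α = W ∧
    ∃ p : ℕ, FromVariable τ₁ α p ∧ FromTerminal τ₂ α p

/-- The substitution `σ` is terminal-comprisingly ambiguous with respect to `α`. -/
def TCAmbiguous {A : Type w} (σ : ℕ+ → List A) (α : Pattern A) : Prop :=
  WordTCAmbiguous α (applySubst σ α)

/-! ### General lemmas -/

section General

variable {A : Type w}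

theorem applyMor_append (φ : ℕ+ → Pattern A) (α β : Pattern A) :
    applyMor φ (α ++ β) = applyMor φ α ++ applyMor φ β := by
  simp [applyMor]

theorem applyMor_comp (φ ψ : ℕ+ → Pattern A) (α : Pattern A) :
    applyMor ψ (applyMor φ α) = applyMor (fun n => applyMor ψ (φ n)) α := by
  induction α with
  | nil => rfl
  | cons s α ih =>
    rcases s with n | a
    · simp only [applyMor, List.flatMap_cons, List.flatMap_append, Sum.elim_inl] at ih ⊢
      rw [ih]
    · simp only [applyMor, List.flatMap_cons, List.flatMap_append, Sum.elim_inr] at ih ⊢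
      rw [ih]
      rfl

theorem applySubst_append (σ : ℕ+ → List A) (α β : Pattern A) :
    applySubst σ (α ++ β) = applySubst σ α ++ applySubst σ β := by
  simp [applySubst]

theorem nonerasing_of_injective {σ : ℕ+ → List A} (h : IsInjectiveSubst σ) (n : ℕ+) :
    σ n ≠ [] := by
  intro hn
  have := h [n] [n, n] (by simp) (by simp) (by simp [hn])
  simp at this

theorem length_le_of_nonerasing (φ : ℕ+ → Pattern A) (α : Pattern A)
    (h : ∀ n, Sum.inl n ∈ α → φ n ≠ []) : α.length ≤ (applyMor φ α).length := by
  induction α with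
  | nil => simp
  | cons s α ih =>
    have ih' := ih fun n hn => h n (List.mem_cons_of_mem _ hn)
    rcases s with n | a
    · have h1 : 1 ≤ (φ n).length := List.length_pos_iff.2 (h n (by simp))
      simp only [applyMor, List.flatMap_cons, Sum.elim_inl, List.length_append,
        List.length_cons] at ih' ⊢
      omega
    · simp only [applyMor, List.flatMap_cons, Sum.elim_inr, List.length_append,
        List.length_cons, List.length_nil] at ih' ⊢
      omega

/-- A pattern is primitive as soon as every terminal-preserving endomorphism fixing it is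
nonerasing on its variables. -/
theorem primitive_of_fix {α : Pattern A}
    (h : ∀ η : ℕ+ → Pattern A, applyMor η α = α → ∀ n, Sum.inl n ∈ α → η n ≠ []) :
    MorphicallyPrimitive α := by
  rintro ⟨β, φ, ψ, hlt, hφ, hψ⟩
  have h1 : applyMor (fun n => applyMor ψ (φ n)) α = α := by
    rw [← applyMor_comp, hφ, hψ]
  have h2 := h _ h1
  have h3 := length_le_of_nonerasing φ α (by
    intro n hn h0
    apply h2 n hn
    rw [h0]
    rfl)
  rw [hφ] at h3
  omega

/-- The number of terminals in a pattern. -/
def tcount (α : Pattern A) : ℕ := α.countP Sum.isRight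

theorem tcount_append (α β : Pattern A) : tcount (α ++ β) = tcount α + tcount β := by
  simp [tcount]

theorem tcount_le (η : ℕ+ → Pattern A) (α : Pattern A) : tcount α ≤ tcount (applyMor η α) := by
  induction α with
  | nil => simp [tcount]
  | cons s α ih =>
    rcases s with n | a
    · simp only [applyMor, List.flatMap_cons, Sum.elim_inl, tcount, List.countP_append,
        List.countP_cons, Sum.isRight_inl] at ih ⊢
      simp only [Bool.false_eq_true, if_false]
      omega
    · simp only [applyMor, List.flatMap_cons, Sum.elim_inr, tcount, List.countP_append,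
        List.countP_cons, Sum.isRight_inr, List.countP_nil] at ih ⊢
      omega

/-- If `η` fixes `α` then the images of the variables of `α` contain no terminals. -/
theorem no_terminal {η : ℕ+ → Pattern A} {α : Pattern A} (h : applyMor η α = α) (n : ℕ+)
    (hn : Sum.inl n ∈ α) (a : A) : Sum.inr a ∉ η n := by
  obtain ⟨α₁, α₂, rfl⟩ := List.append_of_mem hn
  have h1 := tcount_le η α₁
  have h2 := tcount_le η α₂
  have h3 := congrArg tcount h
  have h4 : applyMor η (α₁ ++ Sum.inl n :: α₂) = applyMor η α₁ ++ (η n ++ applyMor η α₂) := by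
    simp [applyMor]
  rw [h4, tcount_append, tcount_append, tcount_append] at h3
  have h5 : tcount (Sum.inl n :: α₂) = tcount α₂ := by simp [tcount]
  rw [h5] at h3
  have h6 : tcount (η n) = 0 := by omega
  intro ha
  rw [tcount, List.countP_eq_zero] at h6
  exact h6 _ ha rfl

/-- Cutting at the first terminal. -/
theorem cut {L₁ L₂ R₁ R₂ : Pattern A} {a a' : A} (h₁ : ∀ c, Sum.inr c ∉ L₁)
    (h₂ : ∀ c, Sum.inr c ∉ L₂) (h : L₁ ++ Sum.inr a :: R₁ = L₂ ++ Sum.inr a' :: R₂) :
    L₁ = L₂ ∧ R₁ = R₂ := by
  induction L₁ generalizing L₂ with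
  | nil =>
    cases L₂ with
    | nil =>
      simp only [List.nil_append, List.cons.injEq] at h
      exact ⟨rfl, h.2⟩
    | cons s L₂ =>
      simp only [List.nil_append, List.cons_append, List.cons.injEq] at h
      exact absurd (by rw [← h.1]; simp) (h₂ a)
  | cons s L₁ ih =>
    cases L₂ with
    | nil =>
      simp only [List.nil_append, List.cons_append, List.cons.injEq] at h
      exact absurd (by rw [h.1]; simp) (h₁ a')
    | cons s' L₂ =>
      simp only [List.cons_append, List.cons.injEq] at h
      obtain ⟨h3, h4⟩ := ih (fun c hc => h₁ c (List.mem_cons_of_mem _ hc))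
        (fun c hc => h₂ c (List.mem_cons_of_mem _ hc)) h.2
      exact ⟨by rw [h.1, h3], h4⟩

/-- Two factorizations of a word without repeated letters at the same letter agree. -/
theorem cut_nodup {B : Type*} {L₁ L₂ R₁ R₂ : List B} {c : B} (hn : (L₂ ++ c :: R₂).Nodup)
    (h : L₁ ++ c :: R₁ = L₂ ++ c :: R₂) : L₁ = L₂ ∧ R₁ = R₂ := by
  induction L₂ generalizing L₁ with
  | nil =>
    cases L₁ with
    | nil =>
      simp only [List.nil_append, List.cons.injEq] at h
      exact ⟨rfl, h.2⟩
    | cons s L₁ =>
      simp only [List.nil_append, List.cons_append, List.cons.injEq] at h hn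
      exfalso
      rw [List.nodup_cons] at hn
      apply hn.1
      rw [← h.2]
      simp
  | cons s L₂ ih =>
    cases L₁ with
    | nil =>
      simp only [List.nil_append, List.cons_append, List.cons.injEq] at h
      exfalso
      rw [List.cons_append, List.nodup_cons] at hn
      apply hn.1
      rw [← h.1]
      simp
    | cons s' L₁ =>
      simp only [List.cons_append, List.cons.injEq] at h
      rw [List.cons_append, List.nodup_cons] at hn
      obtain ⟨h3, h4⟩ := ih hn.2 h.2
      exact ⟨by rw [h.1, h3], h4⟩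

end General


/-! ### The pattern -/

/-- Names for the variables of the pattern. -/
inductive Var where
  | x | h
  | f (i : ℕ) | y (i : ℕ) | v (i : ℕ) | k (i : ℕ) | u (i : ℕ) | p (i : ℕ) | g (i : ℕ)

/-- The positive integer with a given name. -/
def code : Var → ℕ+
  | .x => ⟨1, by omega⟩
  | .h => ⟨2, by omega⟩
  | .f i => ⟨8 * i + 3, by omega⟩
  | .y i => ⟨8 * i + 4, by omega⟩
  | .v i => ⟨8 * i + 5, by omega⟩
  | .k i => ⟨8 * i + 6, by omega⟩
  | .u i => ⟨8 * i + 7, by omega⟩
  | .p i => ⟨8 * i + 8, by omega⟩
  | .g i => ⟨8 * i + 9, by omega⟩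

theorem code_injective : Function.Injective code := by
  intro a b hab
  have h := congrArg (fun n : ℕ+ => (n : ℕ)) hab
  cases a <;> cases b <;> simp only [code, PNat.mk_coe] at h <;>
    first
      | rfl
      | (exfalso; omega)
      | (congr 1; omega)

/-- The variable `u_i`, with `u_0 = y_0`. -/
def U : ℕ → Var
  | 0 => .y 0
  | i + 1 => .u (i + 1)

section Pat

variable {A : Type w}

/-- A variable of the pattern as a symbol. -/
def X (a : Var) : ℕ+ ⊕ A := Sum.inl (code a)

theorem X_inj {a b : Var} : (X a : ℕ+ ⊕ A) = X b ↔ a = b := by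
  constructor
  · intro h
    exact code_injective (Sum.inl.inj h)
  · rintro rfl
    rfl

/-- The block `f_i t_i y_i v_i x b k_i v_i x b`. -/
def blockA (t : ℕ → A) (b : A) (i : ℕ) : Pattern A :=
  [X (.f i), Sum.inr (t i), X (.y i), X (.v i), X .x, Sum.inr b, X (.k i), X (.v i), X .x,
    Sum.inr b]

/-- The block `h u_m x b`. -/
def blockB (b : A) (m : ℕ) : Pattern A := [X .h, X (U m), X .x, Sum.inr b]

/-- The block `p_i u_i u_{i+1} y_{i+1} g_i b`. -/
def blockC (b : A) (i : ℕ) : Pattern A :=
  [X (.p i), X (U i), X (U (i + 1)), X (.y (i + 1)), X (.g i), Sum.inr b]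

/-- The pattern. -/
def pat (t : ℕ → A) (b : A) (m : ℕ) : Pattern A :=
  (List.range (m + 1)).flatMap (blockA t b) ++ (blockB b m ++ (List.range m).flatMap (blockC b))

/-- The equations coming from the `A`-blocks. -/
structure EqA (η : ℕ+ → Pattern A) (i : ℕ) : Prop where
  f : η (code (.f i)) = [X (.f i)]
  y : η (code (.y i)) ++ (η (code (.v i)) ++ η (code .x)) = [X (.y i), X (.v i), X .x]
  k : η (code (.k i)) ++ (η (code (.v i)) ++ η (code .x)) = [X (.k i), X (.v i), X .x]

theorem X_ne_inr (a : Var) (c : A) : (Sum.inr c : ℕ+ ⊕ A) ≠ X a := by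
  unfold X
  exact Sum.inr_ne_inl

theorem extractA {η : ℕ+ → Pattern A} {t : ℕ → A} {b : A} (l : List ℕ) (rest : Pattern A)
    (hnt : ∀ n, Sum.inl n ∈ l.flatMap (blockA t b) ++ rest → ∀ a, Sum.inr a ∉ η n)
    (h : applyMor η (l.flatMap (blockA t b) ++ rest) = l.flatMap (blockA t b) ++ rest) :
    (∀ i ∈ l, EqA η i) ∧ applyMor η rest = rest := by
  induction l with
  | nil => exact ⟨by simp, by simpa using h⟩
  | cons i l ih =>
    have hmem : ∀ z : Var, (X z : ℕ+ ⊕ A) ∈ blockA t b i → ∀ a, Sum.inr a ∉ η (code z) := by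
      intro z hz
      apply hnt
      simp only [List.flatMap_cons, List.append_assoc, List.mem_append]
      exact Or.inl hz
    have e1 : applyMor η ((i :: l).flatMap (blockA t b) ++ rest) =
        η (code (.f i)) ++ Sum.inr (t i) :: ((η (code (.y i)) ++ (η (code (.v i)) ++
        η (code .x))) ++ Sum.inr b :: ((η (code (.k i)) ++ (η (code (.v i)) ++ η (code .x))) ++
        Sum.inr b :: applyMor η (l.flatMap (blockA t b) ++ rest))) := by
      simp [applyMor, blockA, X]
    have e2 : ((i :: l).flatMap (blockA t b) ++ rest) =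
        [X (.f i)] ++ Sum.inr (t i) :: ([X (.y i), X (.v i), X .x] ++ Sum.inr b ::
        ([X (.k i), X (.v i), X .x] ++ Sum.inr b :: (l.flatMap (blockA t b) ++ rest))) := by
      simp [blockA]
    rw [e1, e2] at h
    have nf := hmem (.f i) (by simp [blockA])
    have ny := hmem (.y i) (by simp [blockA])
    have nv := hmem (.v i) (by simp [blockA])
    have nx := hmem .x (by simp [blockA])
    have nk := hmem (.k i) (by simp [blockA])
    obtain ⟨h1, h⟩ := cut nf (by intro c; simp [X_ne_inr]) h
    obtain ⟨h2, h⟩ := cut (by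
      intro c hc
      simp only [List.mem_append] at hc
      rcases hc with hc | hc | hc
      exacts [ny c hc, nv c hc, nx c hc]) (by intro c; simp [X_ne_inr]) h
    obtain ⟨h3, h⟩ := cut (by
      intro c hc
      simp only [List.mem_append] at hc
      rcases hc with hc | hc | hc
      exacts [nk c hc, nv c hc, nx c hc]) (by intro c; simp [X_ne_inr]) h
    obtain ⟨h4, h5⟩ := ih (by
      intro n hn
      apply hnt
      simp only [List.flatMap_cons, List.append_assoc, List.mem_append] at hn ⊢
      exact Or.inr hn) h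
    refine ⟨?_, h5⟩
    intro j hj
    rw [List.mem_cons] at hj
    rcases hj with rfl | hj
    · exact ⟨h1, h2, h3⟩
    · exact h4 j hj

theorem extractB {η : ℕ+ → Pattern A} {b : A} {m : ℕ} (rest : Pattern A)
    (hnt : ∀ n, Sum.inl n ∈ blockB b m ++ rest → ∀ a, Sum.inr a ∉ η n)
    (h : applyMor η (blockB b m ++ rest) = blockB b m ++ rest) :
    η (code .h) ++ (η (code (U m)) ++ η (code .x)) = [X .h, X (U m), X .x] ∧
      applyMor η rest = rest := by
  have hmem : ∀ z : Var, (X z : ℕ+ ⊕ A) ∈ blockB b m → ∀ a, Sum.inr a ∉ η (code z) := by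
    intro z hz
    apply hnt
    simp only [List.mem_append]
    exact Or.inl hz
  have e1 : applyMor η (blockB b m ++ rest) = (η (code .h) ++ (η (code (U m)) ++
      η (code .x))) ++ Sum.inr b :: applyMor η rest := by
    simp [applyMor, blockB, X]
  have e2 : blockB b m ++ rest = [X .h, X (U m), X .x] ++ Sum.inr b :: rest := by
    simp [blockB]
  rw [e1, e2] at h
  exact cut (by
      intro c hc
      simp only [List.mem_append] at hc
      rcases hc with hc | hc | hc
      · exact hmem .h (by simp [blockB]) c hc
      · exact hmem (U m) (by simp [blockB]) c hc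
      · exact hmem .x (by simp [blockB]) c hc) (by intro c; simp [X_ne_inr]) h

theorem extractC {η : ℕ+ → Pattern A} {b : A} (l : List ℕ)
    (hnt : ∀ n, Sum.inl n ∈ l.flatMap (blockC b) → ∀ a, Sum.inr a ∉ η n)
    (h : applyMor η (l.flatMap (blockC b)) = l.flatMap (blockC b)) :
    ∀ i ∈ l, η (code (.p i)) ++ (η (code (U i)) ++ (η (code (U (i + 1))) ++
      (η (code (.y (i + 1))) ++ η (code (.g i))))) =
      [X (.p i), X (U i), X (U (i + 1)), X (.y (i + 1)), X (.g i)] := by
  induction l with
  | nil => simp
  | cons i l ih =>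
    have hmem : ∀ z : Var, (X z : ℕ+ ⊕ A) ∈ blockC b i → ∀ a, Sum.inr a ∉ η (code z) := by
      intro z hz
      apply hnt
      simp only [List.flatMap_cons, List.mem_append]
      exact Or.inl hz
    have e1 : applyMor η ((i :: l).flatMap (blockC b)) =
        (η (code (.p i)) ++ (η (code (U i)) ++ (η (code (U (i + 1))) ++
      (η (code (.y (i + 1))) ++ η (code (.g i)))))) ++
        Sum.inr b :: applyMor η (l.flatMap (blockC b)) := by
      simp [applyMor, blockC, X]
    have e2 : (i :: l).flatMap (blockC b) =
        [X (.p i), X (U i), X (U (i + 1)), X (.y (i + 1)), X (.g i)] ++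
        Sum.inr b :: l.flatMap (blockC b) := by
      simp [blockC]
    rw [e1, e2] at h
    obtain ⟨h1, h2⟩ := cut (by
      intro c hc
      simp only [List.mem_append] at hc
      rcases hc with hc | hc | hc | hc | hc
      · exact hmem (.p i) (by simp [blockC]) c hc
      · exact hmem (U i) (by simp [blockC]) c hc
      · exact hmem (U (i + 1)) (by simp [blockC]) c hc
      · exact hmem (.y (i + 1)) (by simp [blockC]) c hc
      · exact hmem (.g i) (by simp [blockC]) c hc) (by intro c; simp [X_ne_inr]) h
    have h3 := ih (by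
      intro n hn
      apply hnt
      simp only [List.flatMap_cons, List.mem_append] at hn ⊢
      exact Or.inr hn) h2
    intro j hj
    rw [List.mem_cons] at hj
    rcases hj with rfl | hj
    · exact h1
    · exact h3 j hj


/-- The equations satisfied by an endomorphism fixing the pattern. -/
structure Eqs (η : ℕ+ → Pattern A) (m : ℕ) : Prop where
  a : ∀ i, i ≤ m → EqA η i
  b : η (code .h) ++ (η (code (U m)) ++ η (code .x)) = [X .h, X (U m), X .x]
  c : ∀ i, i < m → η (code (.p i)) ++ (η (code (U i)) ++ (η (code (U (i + 1))) ++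
      (η (code (.y (i + 1))) ++ η (code (.g i))))) =
      [X (.p i), X (U i), X (U (i + 1)), X (.y (i + 1)), X (.g i)]

theorem eqs_of_fix {η : ℕ+ → Pattern A} {t : ℕ → A} {b : A} {m : ℕ}
    (h : applyMor η (pat t b m) = pat t b m) : Eqs η m := by
  have hnt : ∀ n, Sum.inl n ∈ pat t b m → ∀ a, Sum.inr a ∉ η n :=
    fun n hn a => no_terminal h n hn a
  obtain ⟨h1, h2⟩ := extractA (List.range (m + 1)) _ hnt h
  have hnt2 : ∀ n, Sum.inl n ∈ blockB b m ++ (List.range m).flatMap (blockC b) →
      ∀ a, Sum.inr a ∉ η n := by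
    intro n hn
    apply hnt
    unfold pat
    rw [List.mem_append]
    exact Or.inr hn
  obtain ⟨h3, h4⟩ := extractB _ hnt2 h2
  have h5 := extractC (List.range m) (by
    intro n hn
    apply hnt2
    rw [List.mem_append]
    exact Or.inr hn) h4
  refine ⟨fun i hi => h1 i (List.mem_range.2 (by omega)), h3,
    fun i hi => h5 i (List.mem_range.2 hi)⟩

theorem y_shape {η : ℕ+ → Pattern A} {i : ℕ} (h : EqA η i) :
    η (code (.y i)) = [X (.y i)] ∨ (X (.v i) : ℕ+ ⊕ A) ∈ η (code (.y i)) := by
  have hy := h.y
  have hk := h.k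
  rcases hc : η (code (.y i)) with _ | ⟨s, L⟩
  · exfalso
    rw [hc, List.nil_append] at hy
    rw [hy] at hk
    have h1 := congrArg List.length hk
    simp only [List.length_append, List.length_cons, List.length_nil] at h1
    have h2 : η (code (.k i)) = [] := List.eq_nil_of_length_eq_zero (by omega)
    rw [h2, List.nil_append] at hk
    simp [X_inj] at hk
  · rw [hc, List.cons_append] at hy
    simp only [List.cons.injEq] at hy
    obtain ⟨rfl, hy⟩ := hy
    rcases L with _ | ⟨s', L⟩
    · left; rfl
    · right
      rw [List.cons_append] at hy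
      simp only [List.cons.injEq] at hy
      rw [hy.1]
      simp

theorem y_fix {η : ℕ+ → Pattern A} {m : ℕ} (h : Eqs η m) (i : ℕ) (hi : i ≤ m) :
    η (code (.y i)) = [X (.y i)] := by
  rcases y_shape (h.a i hi) with h1 | h1
  · exact h1
  exfalso
  rcases i with _ | j
  · rcases Nat.eq_zero_or_pos m with rfl | hm
    · have hb := h.b
      have : (X (.v 0) : ℕ+ ⊕ A) ∈ [X .h, X (U 0), X .x] := by
        rw [← hb]
        simp only [List.mem_append]
        exact Or.inr (Or.inl h1)
      simp [X_inj, U] at this
    · have hc := h.c 0 hm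
      have : (X (.v 0) : ℕ+ ⊕ A) ∈ [X (.p 0), X (U 0), X (U (0 + 1)), X (.y (0 + 1)), X (.g 0)] := by
        rw [← hc]
        simp only [List.mem_append]
        exact Or.inr (Or.inl h1)
      simp [X_inj, U] at this
  · have hc := h.c j (by omega)
    have : (X (.v (j + 1)) : ℕ+ ⊕ A) ∈
        [X (.p j), X (U j), X (U (j + 1)), X (.y (j + 1)), X (.g j)] := by
      rw [← hc]
      simp only [List.mem_append]
      exact Or.inr (Or.inr (Or.inr (Or.inl h1)))
    rcases j with _ | j <;> simp [X_inj, U] at this

theorem U_step {η : ℕ+ → Pattern A} {m : ℕ} (h : Eqs η m) (i : ℕ) (hi : i < m)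
    (hU : η (code (U i)) = [X (U i)]) : η (code (.p i)) = [X (.p i)] ∧
      η (code (U (i + 1))) = [X (U (i + 1))] ∧ η (code (.g i)) = [X (.g i)] := by
  have hc := h.c i hi
  rw [hU, y_fix h (i + 1) (by omega)] at hc
  have nd : ([X (.p i)] ++ X (U i) :: [X (U (i + 1)), X (.y (i + 1)), X (.g i)] :
      List (ℕ+ ⊕ A)).Nodup := by
    rcases i with _ | i <;> simp [X_inj, U]
  obtain ⟨h1, h2⟩ := cut_nodup nd hc
  have nd' : ([X (U (i + 1))] ++ X (.y (i + 1)) :: [X (.g i)] : List (ℕ+ ⊕ A)).Nodup := by
    simp [X_inj, U]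
  obtain ⟨h3, h4⟩ := cut_nodup nd' h2
  exact ⟨h1, h3, h4⟩

theorem U_fix {η : ℕ+ → Pattern A} {m : ℕ} (h : Eqs η m) (i : ℕ) (hi : i ≤ m) :
    η (code (U i)) = [X (U i)] := by
  induction i with
  | zero => exact y_fix h 0 hi
  | succ i ih => exact (U_step h i (by omega) (ih (by omega))).2.1

theorem hx_fix {η : ℕ+ → Pattern A} {m : ℕ} (h : Eqs η m) :
    η (code .h) = [X .h] ∧ η (code .x) = [X .x] := by
  have hb := h.b
  rw [U_fix h m le_rfl] at hb
  have nd : ([X .h] ++ X (U m) :: [X .x] : List (ℕ+ ⊕ A)).Nodup := by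
    rcases m with _ | m <;> simp [X_inj, U]
  exact cut_nodup nd hb

theorem vk_fix {η : ℕ+ → Pattern A} {m : ℕ} (h : Eqs η m) (i : ℕ) (hi : i ≤ m) :
    η (code (.v i)) = [X (.v i)] ∧ η (code (.k i)) = [X (.k i)] := by
  have hy := (h.a i hi).y
  have hk := (h.a i hi).k
  rw [y_fix h i hi, (hx_fix h).2] at hy
  have h1 : η (code (.v i)) ++ [X .x] = [X (.v i)] ++ [X .x] := by simpa using hy
  have h2 := List.append_cancel_right h1
  rw [h2, (hx_fix h).2] at hk
  have h3 : η (code (.k i)) ++ [X (.v i), X .x] = [X (.k i)] ++ [X (.v i), X .x] := by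
    simpa using hk
  exact ⟨h2, List.append_cancel_right h3⟩

theorem pat_primitive (t : ℕ → A) (b : A) (m : ℕ) : MorphicallyPrimitive (pat t b m) := by
  apply primitive_of_fix
  intro η hη n hn
  have h := eqs_of_fix hη
  have key : ∀ z : Var, η (code z) = [X z] → (Sum.inl n : ℕ+ ⊕ A) = X z → η n ≠ [] := by
    intro z hz hnz
    have : n = code z := Sum.inl.inj hnz
    rw [this, hz]
    simp
  unfold pat at hn
  simp only [List.mem_append, List.mem_flatMap, List.mem_range, blockA, blockB, blockC,
    List.mem_cons, List.not_mem_nil, or_false, reduceCtorEq, false_or] at hn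
  rcases hn with ⟨i, hi, hn⟩ | hn | ⟨i, hi, hn⟩
  · have h1 := vk_fix h i (by omega)
    rcases hn with hn | hn | hn | hn | hn | hn | hn
    · exact key _ (h.a i (by omega)).f hn
    · exact key _ (y_fix h i (by omega)) hn
    · exact key _ h1.1 hn
    · exact key _ (hx_fix h).2 hn
    · exact key _ h1.2 hn
    · exact key _ h1.1 hn
    · exact key _ (hx_fix h).2 hn
  · rcases hn with hn | hn | hn
    · exact key _ (hx_fix h).1 hn
    · exact key _ (U_fix h m le_rfl) hn
    · exact key _ (hx_fix h).2 hn
  · have h1 := U_step h i hi (U_fix h i (by omega))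
    rcases hn with hn | hn | hn | hn | hn
    · exact key _ h1.1 hn
    · exact key _ (U_fix h i (by omega)) hn
    · exact key _ h1.2.1 hn
    · exact key _ (y_fix h (i + 1) (by omega)) hn
    · exact key _ h1.2.2 hn


/-! ### The second substitution -/

/-- The images of the named variables under the second substitution. -/
def tau' (σ : ℕ+ → List A) (m j : ℕ) (P Q : List A) (T : A) : Var → List A
  | .x => Q
  | .h => σ (code .h) ++ (σ (code (U m)) ++ (P ++ [T]))
  | .f i => if i = j then σ (code (.f i)) ++ T :: (σ (code (.y i)) ++ (σ (code (.v i)) ++ P))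
      else σ (code (.f i))
  | .y i => if i = j then [] else σ (code (.y i))
  | .v i => if i = j then [] else σ (code (.v i)) ++ (P ++ [T])
  | .k i => if i = j then σ (code (.k i)) ++ (σ (code (.v i)) ++ (P ++ [T]))
      else σ (code (.k i))
  | .u i => if j ≤ i then [] else σ (code (.u i))
  | .p i => if j ≤ i then σ (code (.p i)) ++ (σ (code (U i)) ++ σ (code (U (i + 1))))
      else σ (code (.p i))
  | .g i => if j = i + 1 then σ (code (U (i + 1))) ++ (σ (code (.y (i + 1))) ++ σ (code (.g i)))
      else σ (code (.g i))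

/-- The second substitution. -/
noncomputable def tau (σ : ℕ+ → List A) (m j : ℕ) (P Q : List A) (T : A) : ℕ+ → List A :=
  Function.extend code (tau' σ m j P Q T) σ

theorem tau_code (σ : ℕ+ → List A) (m j : ℕ) (P Q : List A) (T : A) (z : Var) :
    tau σ m j P Q T (code z) = tau' σ m j P Q T z :=
  code_injective.extend_apply _ _ _

theorem tau'_U (σ : ℕ+ → List A) (m j : ℕ) (P Q : List A) (T : A) (i : ℕ) :
    tau' σ m j P Q T (U i) = if j ≤ i then [] else σ (code (U i)) := by
  rcases i with _ | i
  · simp only [U, tau', Nat.le_zero]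
    by_cases h : j = 0
    · rw [if_pos h, if_pos h.symm]
    · rw [if_neg h, if_neg (Ne.symm h)]
  · rfl

theorem subst_blockA {σ : ℕ+ → List A} {t : ℕ → A} {b : A} {m j : ℕ} {P Q : List A}
    (hσ : σ (code .x) = P ++ t j :: Q) (i : ℕ) :
    applySubst (tau σ m j P Q (t j)) (blockA t b i) = applySubst σ (blockA t b i) := by
  by_cases h : i = j
  · subst h
    simp [applySubst, blockA, X, tau_code, tau', hσ]
  · simp [applySubst, blockA, X, tau_code, tau', hσ, h]

theorem subst_blockB {σ : ℕ+ → List A} {b : A} {m j : ℕ} {P Q : List A} {T : A} (hj : j ≤ m)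
    (hσ : σ (code .x) = P ++ T :: Q) :
    applySubst (tau σ m j P Q T) (blockB b m) = applySubst σ (blockB b m) := by
  simp only [applySubst, blockB, X, List.flatMap_cons, List.flatMap_nil, Sum.elim_inl,
    Sum.elim_inr, tau_code, tau'_U, if_pos hj]
  simp [tau', hσ]

theorem subst_blockC {σ : ℕ+ → List A} {b : A} {m j : ℕ} {P Q : List A} {T : A} (i : ℕ) :
    applySubst (tau σ m j P Q T) (blockC b i) = applySubst σ (blockC b i) := by
  simp only [applySubst, blockC, X, List.flatMap_cons, List.flatMap_nil, Sum.elim_inl,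
    Sum.elim_inr, tau_code, tau'_U]
  rcases lt_trichotomy j (i + 1) with h | h | h
  · have h1 : j ≤ i := by omega
    have h2 : j ≤ i + 1 := by omega
    have h3 : ¬ (i + 1 = j) := by omega
    have h4 : ¬ (j = i + 1) := by omega
    simp [tau', h1, h2, h3, h4]
  · subst h
    have h1 : ¬ (i + 1 ≤ i) := by omega
    simp [tau', h1]
  · have h1 : ¬ (j ≤ i) := by omega
    have h2 : ¬ (j ≤ i + 1) := by omega
    have h3 : ¬ (i + 1 = j) := by omega
    have h4 : ¬ (j = i + 1) := by omega
    simp [tau', h1, h2, h3, h4]

theorem subst_flatMap {σ τ : ℕ+ → List A} {B : ℕ → Pattern A} (l : List ℕ)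
    (h : ∀ i, applySubst τ (B i) = applySubst σ (B i)) :
    applySubst τ (l.flatMap B) = applySubst σ (l.flatMap B) := by
  induction l with
  | nil => rfl
  | cons i l ih => rw [List.flatMap_cons, applySubst_append, applySubst_append, h, ih]

/-- Every substitution whose image of the variable `x` contains one of the letters `t_j` is
terminal-comprisingly ambiguous. -/
theorem ambiguous {σ : ℕ+ → List A} {t : ℕ → A} {b : A} {m j : ℕ} (hj : j ≤ m)
    {P Q : List A} (hσ : σ (code .x) = P ++ t j :: Q) : TCAmbiguous σ (pat t b m) := by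
  have heq : applySubst (tau σ m j P Q (t j)) (pat t b m) = applySubst σ (pat t b m) := by
    unfold pat
    rw [applySubst_append, applySubst_append, applySubst_append, applySubst_append,
      subst_flatMap _ (subst_blockA hσ), subst_blockB hj hσ, subst_flatMap _ subst_blockC]
  obtain ⟨l₁, l₂, hl⟩ := List.append_of_mem (List.mem_range.2 (show j < m + 1 by omega))
  refine ⟨σ, tau σ m j P Q (t j), rfl, heq, ?_⟩
  set pre : Pattern A := l₁.flatMap (blockA t b) with hpre
  have hpreeq : applySubst (tau σ m j P Q (t j)) pre = applySubst σ pre :=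
    subst_flatMap _ (subst_blockA hσ)
  refine ⟨(applySubst (tau σ m j P Q (t j)) (pre ++ [X (.f j)])).length, ?_, ?_⟩
  · refine ⟨pre ++ [X (.f j), Sum.inr (t j), X (.y j), X (.v j)], code .x,
      [Sum.inr b, X (.k j), X (.v j), X .x, Sum.inr b] ++ (l₂.flatMap (blockA t b) ++
        (blockB b m ++ (List.range m).flatMap (blockC b))), ?_, ?_, ?_⟩
    · unfold pat
      rw [hl]
      simp [hpre, blockA, X]
    · rw [applySubst_append, applySubst_append, hpreeq]
      simp only [applySubst, X, List.flatMap_cons, List.flatMap_nil, Sum.elim_inl, Sum.elim_inr,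
        tau_code, tau', if_true, List.length_append, List.length_cons, List.length_nil]
      omega
    · rw [applySubst_append, applySubst_append, hpreeq, hσ]
      simp only [applySubst, X, List.flatMap_cons, List.flatMap_nil, Sum.elim_inl, Sum.elim_inr,
        tau_code, tau', if_true, List.length_append, List.length_cons, List.length_nil]
      omega
  · refine ⟨pre ++ [X (.f j)], t j,
      [X (.y j), X (.v j), X .x, Sum.inr b, X (.k j), X (.v j), X .x, Sum.inr b] ++
        (l₂.flatMap (blockA t b) ++ (blockB b m ++ (List.range m).flatMap (blockC b))), ?_, rfl⟩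
    unfold pat
    rw [hl]
    simp [hpre, blockA]

end Pat


/-- Let `A` be a nonempty finite alphabet. There is a morphically primitive pattern over `A`,
containing a terminal, such that every injective substitution, and more generally every
substitution that maps no variable to the empty word, is terminal-comprisingly ambiguous with
respect to it. -/
theorem result (A : Type w) [Finite A] [Nonempty A] :
    ∃ α : Pattern A, MorphicallyPrimitive α ∧ (∃ a : A, Sum.inr a ∈ α) ∧
      ∀ σ : ℕ+ → List A, (IsInjectiveSubst σ ∨ ∀ n, σ n ≠ []) → TCAmbiguous σ α := by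
  obtain ⟨n, ⟨e⟩⟩ := Finite.exists_equiv_fin A
  obtain ⟨b⟩ := ‹Nonempty A›
  let t : ℕ → A := fun i => if h : i < n then e.symm ⟨i, h⟩ else b
  have ht : ∀ a : A, ∃ j, j ≤ n ∧ t j = a := by
    intro a
    refine ⟨(e a : ℕ), (e a).2.le, ?_⟩
    simp [t]
  refine ⟨pat t b n, pat_primitive t b n, ⟨b, by simp [pat, blockB]⟩, ?_⟩
  intro σ hσ
  have hne : σ (code .x) ≠ [] := by
    rcases hσ with h | h
    · exact nonerasing_of_injective h _
    · exact h _
  obtain ⟨a, ha⟩ := List.exists_mem_of_ne_nil _ hne
  obtain ⟨P, Q, hPQ⟩ := List.append_of_mem ha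
  obtain ⟨j, hj, hja⟩ := ht a
  rw [← hja] at hPQ
  exact ambiguous hj hPQ

end Pool.Agent.Results.MP_00321d_lc.EveryAlphabet
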